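import Mathlib
import Pool.Agent.X139.KT.Stm

set_option autoImplicit false
open MeasureTheory ProbabilityTheory
open scoped BigOperators

namespace Pool.Agent.H329.KT

open Pool.Agent.X139.KT

/-- entries of the Kikuchi matrix -/
noncomputable def M {n l : ℕ} (Z : Finset (Fin n) → ℝ) (I J : V n l) : ℝ :=
  if (symmDiff I.1 J.1).card = 2 then Z (symmDiff I.1 J.1) else 0

lemma M_comm {n l : ℕ} (Z : Finset (Fin n) → ℝ) (I J : V n l) : M Z I J = M Z J I := by
  unfold M; rw [symmDiff_comm]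

lemma qf_eq {n l : ℕ} (Z : Finset (Fin n) → ℝ) (v : V n l → ℝ) :
    qf Z v = ∑ I : V n l, ∑ J : V n l, M Z I J * (v I * v J) := by
  unfold qf M
  refine Finset.sum_congr rfl fun I _ => Finset.sum_congr rfl fun J _ => ?_
  split_ifs <;> simp

lemma qf_neg {n l : ℕ} (Z : Finset (Fin n) → ℝ) (v : V n l → ℝ) :
    qf (fun S => - Z S) v = - qf Z v := by
  unfold qf
  rw [← Finset.sum_neg_distrib]
  refine Finset.sum_congr rfl fun I _ => ?_
  rw [← Finset.sum_neg_distrib]
  refine Finset.sum_congr rfl fun J _ => ?_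
  split_ifs <;> simp

lemma qf_diff {n l : ℕ} (Z : Finset (Fin n) → ℝ) (u w : V n l → ℝ) :
    qf Z (fun I => u I + w I) - qf Z (fun I => u I - w I) =
      4 * ∑ I : V n l, ∑ J : V n l, M Z I J * (u I * w J) := by
  have h : ∑ I : V n l, ∑ J : V n l, M Z I J * (w I * u J) =
      ∑ I : V n l, ∑ J : V n l, M Z I J * (u I * w J) := by
    rw [Finset.sum_comm]
    refine Finset.sum_congr rfl fun I _ => Finset.sum_congr rfl fun J _ => ?_
    rw [M_comm]; ring
  have h2 : qf Z (fun I => u I + w I) - qf Z (fun I => u I - w I) =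
      2 * (∑ I : V n l, ∑ J : V n l, M Z I J * (u I * w J)) +
        2 * ∑ I : V n l, ∑ J : V n l, M Z I J * (w I * u J) := by
    rw [qf_eq, qf_eq, ← Finset.sum_sub_distrib, Finset.mul_sum, Finset.mul_sum,
      ← Finset.sum_add_distrib]
    refine Finset.sum_congr rfl fun I _ => ?_
    rw [← Finset.sum_sub_distrib, Finset.mul_sum, Finset.mul_sum, ← Finset.sum_add_distrib]
    refine Finset.sum_congr rfl fun J _ => ?_
    ring
  rw [h2, h]; ring

section nb

variable {n l : ℕ} (I0 : V n l) (i0 : Fin n) (hi : i0 ∈ I0.1)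

/-- the neighbour of `I0` obtained by replacing `i0` by `j` -/
def K (j : {j : Fin n // j ∉ I0.1}) : V n l :=
  ⟨insert j.1 (I0.1.erase i0), by
    rw [Finset.card_insert_of_notMem (fun h => j.2 (Finset.mem_of_mem_erase h)),
      Finset.card_erase_of_mem hi]
    have : 0 < I0.1.card := Finset.card_pos.2 ⟨_, hi⟩
    have h2 := I0.2
    omega⟩

lemma K_inj : Function.Injective (K I0 i0 hi) := by
  intro j j' h
  have h1 : j.1 ∈ insert j'.1 (I0.1.erase i0) := by
    have : insert j.1 (I0.1.erase i0) = insert j'.1 (I0.1.erase i0) := congrArg Subtype.val h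
    rw [← this]; exact Finset.mem_insert_self _ _
  rcases Finset.mem_insert.1 h1 with h2 | h2
  · exact Subtype.ext h2
  · exact absurd (Finset.mem_of_mem_erase h2) j.2

lemma K_ne (j : {j : Fin n // j ∉ I0.1}) : K I0 i0 hi j ≠ I0 := by
  intro h
  have h1 : j.1 ∈ (K I0 i0 hi j).1 := Finset.mem_insert_self _ _
  rw [h] at h1
  exact j.2 h1

lemma K_card (j : {j : Fin n // j ∉ I0.1}) :
    (symmDiff I0.1 (K I0 i0 hi j).1).card = 2 := by
  have : symmDiff I0.1 (K I0 i0 hi j).1 = {i0, j.1} := by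
    ext x
    simp only [K, Finset.mem_symmDiff, Finset.mem_insert, Finset.mem_erase,
      Finset.mem_singleton]
    constructor
    · rintro (⟨h1, h2⟩ | ⟨h1, h2⟩)
      · by_cases hx : x = i0
        · exact Or.inl hx
        · exact absurd (Or.inr ⟨hx, h1⟩) h2
      · rcases h1 with h1 | h1
        · exact Or.inr h1
        · exact absurd h1.2 h2
    · rintro (h | h)
      · subst h
        left
        refine ⟨hi, ?_⟩
        rintro (h | h)
        · exact j.2 (h ▸ hi)
        · exact h.1 rfl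
      · subst h
        exact Or.inr ⟨Or.inl rfl, j.2⟩
  rw [this, Finset.card_pair]
  intro h
  exact j.2 (h ▸ hi)

/-- the pointwise bound -/
lemma pointwise (hl : l < n)
    (hT : ∀ (Z : Finset (Fin n) → ℝ) (v : V n l → ℝ), ∑ I, v I ^ 2 = 1 → qf Z v ≤ T n l Z)
    (Z : Finset (Fin n) → ℝ) :
    2 / Real.sqrt ((n : ℝ) - l) *
        ∑ j : {j : Fin n // j ∉ I0.1}, |Z (symmDiff I0.1 (K I0 i0 hi j).1)| ≤
      T n l Z + T n l (fun S => - Z S) := by
  classical
  have hN : (0 : ℝ) < (n : ℝ) - l := by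
    have : (l : ℝ) < n := by exact_mod_cast hl
    linarith
  set a : ℝ := 1 / Real.sqrt 2 with ha
  set b : ℝ := 1 / (Real.sqrt 2 * Real.sqrt ((n : ℝ) - l)) with hb
  have ha2 : a ^ 2 = 1 / 2 := by
    rw [ha, div_pow, Real.sq_sqrt (by norm_num)]; norm_num
  have hb2 : b ^ 2 * ((n : ℝ) - l) = 1 / 2 := by
    rw [hb, div_pow, mul_pow, Real.sq_sqrt (by norm_num), Real.sq_sqrt hN.le]
    field_simp
  have hab : 4 * (a * b) = 2 / Real.sqrt ((n : ℝ) - l) := by
    have h2 : Real.sqrt 2 * Real.sqrt 2 = 2 := Real.mul_self_sqrt (by norm_num)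
    have hs : Real.sqrt ((n : ℝ) - l) ≠ 0 := (Real.sqrt_pos.2 hN).ne'
    have hs2 : Real.sqrt 2 ≠ 0 := by positivity
    rw [ha, hb]
    field_simp
    nlinarith [h2]
  set s : {j : Fin n // j ∉ I0.1} → ℝ := fun j =>
    if 0 ≤ Z (symmDiff I0.1 (K I0 i0 hi j).1) then 1 else -1 with hs
  have hs2 : ∀ j, s j ^ 2 = 1 := by
    intro j; simp only [hs]; split_ifs <;> norm_num
  have hsZ : ∀ j, Z (symmDiff I0.1 (K I0 i0 hi j).1) * s j =
      |Z (symmDiff I0.1 (K I0 i0 hi j).1)| := by
    intro j; simp only [hs]; split_ifs with h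
    · rw [abs_of_nonneg h, mul_one]
    · rw [abs_of_neg (not_le.1 h)]; ring
  set u : V n l → ℝ := fun I => if I = I0 then a else 0 with hu
  set w : V n l → ℝ := Function.extend (K I0 i0 hi) (fun j => b * s j) 0 with hw
  have hwK : ∀ j, w (K I0 i0 hi j) = b * s j := fun j => (K_inj I0 i0 hi).extend_apply _ _ j
  have hw0 : ∀ I, I ∉ Set.range (K I0 i0 hi) → w I = 0 := by
    intro I hI
    rw [hw, Function.extend_apply']
    · rfl
    · rintro ⟨j, hj⟩; exact hI ⟨j, hj⟩
  have hwI0 : w I0 = 0 := hw0 _ (by rintro ⟨j, hj⟩; exact K_ne I0 i0 hi j hj)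
  have hcard : (Fintype.card {j : Fin n // j ∉ I0.1} : ℝ) = (n : ℝ) - l := by
    have h1 : Fintype.card {j : Fin n // j ∉ I0.1} = n - l := by
      rw [Fintype.card_subtype_compl, Fintype.card_fin, Fintype.card_coe, I0.2]
    rw [h1, Nat.cast_sub hl.le]
  have hsumw : ∑ I, w I ^ 2 = 1 / 2 := by
    rw [← Fintype.sum_of_injective (K I0 i0 hi) (K_inj I0 i0 hi) (fun j => (b * s j) ^ 2)
      (fun I => w I ^ 2) (fun I hI => by rw [hw0 I hI]; norm_num) (fun j => by rw [hwK])]
    have : ∀ j, (b * s j) ^ 2 = b ^ 2 := by intro j; rw [mul_pow, hs2, mul_one]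
    simp only [this, Finset.sum_const, Finset.card_univ, nsmul_eq_mul]
    rw [hcard]; linarith [hb2]
  have hsumu : ∑ I, u I ^ 2 = 1 / 2 := by
    rw [Finset.sum_eq_single I0]
    · simp only [hu, if_true]; exact ha2
    · intro I _ hI; simp only [hu, if_neg hI]; norm_num
    · intro h; exact absurd (Finset.mem_univ _) h
  have hsumuw : ∑ I, u I * w I = 0 := by
    refine Finset.sum_eq_zero fun I _ => ?_
    simp only [hu]
    split_ifs with h
    · rw [h, hwI0, mul_zero]
    · rw [zero_mul]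
  have hplus : ∑ I, (u I + w I) ^ 2 = 1 := by
    have : ∀ I, (u I + w I) ^ 2 = u I ^ 2 + w I ^ 2 + 2 * (u I * w I) := fun I => by ring
    simp only [this, Finset.sum_add_distrib, ← Finset.mul_sum]
    rw [hsumw, hsumu, hsumuw]; norm_num
  have hminus : ∑ I, (u I - w I) ^ 2 = 1 := by
    have : ∀ I, (u I - w I) ^ 2 = u I ^ 2 + w I ^ 2 + (-2) * (u I * w I) := fun I => by ring
    simp only [this, Finset.sum_add_distrib, ← Finset.mul_sum]
    rw [hsumw, hsumu, hsumuw]; norm_num
  have h1 := hT Z _ hplus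
  have h2 := hT (fun S => - Z S) _ hminus
  rw [qf_neg] at h2
  have h3 := qf_diff Z u w
  have h4 : ∑ I : V n l, ∑ J : V n l, M Z I J * (u I * w J) =
      a * b * ∑ j : {j : Fin n // j ∉ I0.1}, |Z (symmDiff I0.1 (K I0 i0 hi j).1)| := by
    rw [Finset.sum_eq_single I0]
    · rw [← Fintype.sum_of_injective (K I0 i0 hi) (K_inj I0 i0 hi)
        (fun j => a * b * |Z (symmDiff I0.1 (K I0 i0 hi j).1)|)
        (fun J => M Z I0 J * (u I0 * w J)) (fun J hJ => by rw [hw0 J hJ]; ring)
        (fun j => by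
          rw [hwK, ← hsZ]
          simp only [M, if_pos (K_card I0 i0 hi j), hu, if_true]
          ring)]
      rw [Finset.mul_sum]
    · intro I _ hI
      refine Finset.sum_eq_zero fun J _ => ?_
      simp only [hu, if_neg hI]; ring
    · intro h; exact absurd (Finset.mem_univ _) h
  rw [h4] at h3
  have h5 : 4 * (a * b * ∑ j : {j : Fin n // j ∉ I0.1}, |Z (symmDiff I0.1 (K I0 i0 hi j).1)|) =
      2 / Real.sqrt ((n : ℝ) - l) *
        ∑ j : {j : Fin n // j ∉ I0.1}, |Z (symmDiff I0.1 (K I0 i0 hi j).1)| := by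
    rw [← hab]; ring
  rw [← h5, ← h3]
  linarith

end nb

lemma mp_neg (n : ℕ) : MeasurePreserving (fun Z : Finset (Fin n) → ℝ => fun S => - Z S)
    (G n) (G n) := by
  refine measurePreserving_pi (fun _ : Finset (Fin n) => gaussianReal 0 1)
    (fun _ : Finset (Fin n) => gaussianReal 0 1) (f := fun _ x => -x) (fun _ => ?_)
  exact ⟨measurable_neg, by
    have := gaussianReal_map_neg (μ := 0) (v := 1)
    simpa using this⟩

lemma mp_eval (n : ℕ) (S : Finset (Fin n)) :
    MeasurePreserving (fun Z : Finset (Fin n) → ℝ => Z S) (G n) (gaussianReal 0 1) :=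
  measurePreserving_eval (fun _ : Finset (Fin n) => gaussianReal 0 1) S

lemma int_abs : Integrable (fun z : ℝ => |z|) (gaussianReal 0 1) := by
  have h : MemLp id 1 (gaussianReal 0 1) := memLp_id_gaussianReal' 1 (by simp)
  exact (memLp_one_iff_integrable.1 h).abs

lemma int_abs' (n : ℕ) (S : Finset (Fin n)) : Integrable (fun Z => |Z S|) (G n) :=
  (mp_eval n S).integrable_comp_of_integrable int_abs

lemma integral_abs (n : ℕ) (S : Finset (Fin n)) :
    ∫ Z, |Z S| ∂(G n) = ∫ z, |z| ∂(gaussianReal 0 1) := by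
  rw [← (mp_eval n S).map_eq, integral_map (mp_eval n S).measurable.aemeasurable
    (by fun_prop)]

theorem t_GR : S_GR := by
  intro n l h0 hl hint hT
  obtain ⟨A, -, hA⟩ := Finset.exists_subset_card_eq
    (s := (Finset.univ : Finset (Fin n))) (n := l) (by simpa using hl.le)
  obtain ⟨i0, hi⟩ : A.Nonempty := Finset.card_pos.1 (by omega)
  set I0 : V n l := ⟨A, hA⟩ with hI0
  have hi' : i0 ∈ I0.1 := hi
  have hN : (0 : ℝ) < (n : ℝ) - l := by
    have : (l : ℝ) < n := by exact_mod_cast hl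
    linarith
  have hcard : (Fintype.card {j : Fin n // j ∉ I0.1} : ℝ) = (n : ℝ) - l := by
    have h1 : Fintype.card {j : Fin n // j ∉ I0.1} = n - l := by
      rw [Fintype.card_subtype_compl, Fintype.card_fin, Fintype.card_coe, I0.2]
    rw [h1, Nat.cast_sub hl.le]
  have hint2 : Integrable (fun Z : Finset (Fin n) → ℝ => T n l (fun S => - Z S)) (G n) :=
    (mp_neg n).integrable_comp_of_integrable hint
  have hneg : ∫ Z, T n l (fun S => - Z S) ∂(G n) = ∫ Z, T n l Z ∂(G n) := by
    conv_rhs => rw [← (mp_neg n).map_eq]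
    rw [integral_map (mp_neg n).measurable.aemeasurable
      (by rw [(mp_neg n).map_eq]; exact hint.aestronglyMeasurable)]
  have key : ∫ Z, 2 / Real.sqrt ((n : ℝ) - l) *
        ∑ j : {j : Fin n // j ∉ I0.1}, |Z (symmDiff I0.1 (K I0 i0 hi' j).1)| ∂(G n) ≤
      ∫ Z, (T n l Z + T n l (fun S => - Z S)) ∂(G n) := by
    refine integral_mono ?_ (hint.add hint2) (fun Z => pointwise I0 i0 hi' hl hT Z)
    exact (integrable_finsetSum _ (fun j _ => int_abs' n _)).const_mul _
  rw [integral_add hint hint2, hneg, integral_const_mul,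
    integral_finsetSum _ (fun j _ => int_abs' n _)] at key
  simp only [integral_abs, Finset.sum_const, Finset.card_univ, nsmul_eq_mul] at key
  rw [hcard] at key
  have hsq : Real.sqrt ((n : ℝ) - l) * Real.sqrt ((n : ℝ) - l) = (n : ℝ) - l :=
    Real.mul_self_sqrt hN.le
  have hs : Real.sqrt ((n : ℝ) - l) ≠ 0 := (Real.sqrt_pos.2 hN).ne'
  have e : 2 / Real.sqrt ((n : ℝ) - l) * (((n : ℝ) - l) * ∫ z, |z| ∂(gaussianReal 0 1)) =
      2 * (Real.sqrt ((n : ℝ) - l) * ∫ z, |z| ∂(gaussianReal 0 1)) := by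
    nth_rewrite 2 [← hsq]
    field_simp
  rw [e] at key
  linarith

end Pool.Agent.H329.KT

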